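import Pool.Agent.Lib.MP_15511a_al.Two.Final

/-!
Primitivity in free abelian-by-(nilpotent of class 2) groups of large rank is decided by the
Fox row.
-/

namespace Pool.Agent.Results.MP_15511a_al.ClassTwo

open MP15511a

/-- Let w be any element of the free group `F_r` and let `n ≥ (r + 4)^6`. Then w is primitive in
the free group `F_n(A N_2)` of rank n of the variety of abelian-by-(nilpotent of class at most 2)
groups if and only if the row of the Fox derivatives of w over the integral group ring of
`F_r / γ_3(F_r)` is unimodular. -/
theorem result (r n : ℕ) (h : r ≤ n) (hn : (r + 4) ^ 6 ≤ n) (w : FreeGroup (Fin r)) :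
    Primitive (emb 2 h w) ↔ UnimodularRow 2 w :=
  ⟨unimodular_of_primitive h w, class_two w h hn⟩

end Pool.Agent.Results.MP_15511a_al.ClassTwo
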