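import Pool.Agent.Lib.MP_15511a_al.NonPrim
import Pool.Agent.Lib.MP_15511a_al.FinPrim
import Pool.Agent.Lib.MP_15511a_al.Fox

/-!
Primitivity in the free abelian-by-(class 2 nilpotent) group of rank 2 is not detected by
finite quotients.
-/

open scoped commutatorElement

universe u

namespace Pool.Agent.Results.MP_15511a_al.FiniteQuotients

open MP15511a

/-- For nonzero m, n the element `[[y, z]^m, z^(2n)] x`, `z = [x, y]`, of
`G = F / [γ_3(F), γ_3(F)]`, F free on x, y, is not primitive; its image in every finite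
quotient Q of G is a member of a generating pair of Q; and the row of its Fox derivatives over
the integral group ring of `F / γ_3(F)` is unimodular. -/
theorem result (m n : ℤ) (hm : m ≠ 0) (hn : n ≠ 0) :
    ¬ Primitive (word m n (gen 2 0) (gen 2 1) : FreeAN 2 2) ∧
    (∀ (Q : Type u) [Group Q] [Finite Q] (π : FreeAN 2 2 →* Q), Function.Surjective π →
      ∃ v : Q, Subgroup.closure {π (word m n (gen 2 0) (gen 2 1)), v} = ⊤) ∧
    (∃ D : Fin 2 → FreeGroup (Fin 2) → MonoidAlgebra ℤ
        (FreeGroup (Fin 2) ⧸ (⊤ : Subgroup (FreeGroup (Fin 2))).lowerCentralSeries 2),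
      (∀ i j, D i (FreeGroup.of j) = if i = j then 1 else 0) ∧
      (∀ i g h, D i (g * h) = D i g + MonoidAlgebra.of ℤ _ (QuotientGroup.mk g) * D i h) ∧
      ∃ a b, D 0 (word m n (FreeGroup.of 0) (FreeGroup.of 1)) * a
        + D 1 (word m n (FreeGroup.of 0) (FreeGroup.of 1)) * b = 1) := by
  refine ⟨not_primitive m n hm hn, ?_, fox_unimod m n⟩
  intro Q _ _ π hπ
  have hab : InAN 2 Q := by
    apply inAN_of_surj π hπ
    have h := inAN_free 2 2
    rw [InAN] at h
    rw [h]
    exact bot_le
  have hgen : Subgroup.closure {π (gen 2 0), π (gen 2 1)} = ⊤ := by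
    have h1 := congrArg (Subgroup.map π) (closure_gen 2 2)
    rw [MonoidHom.map_closure, Subgroup.map_top_of_surjective π hπ, ← Set.range_comp] at h1
    rw [← h1]
    congr 1
    ext a
    constructor
    · rintro (h | h)
      · exact ⟨0, h.symm⟩
      · exact ⟨1, h.symm⟩
    · rintro ⟨i, hi⟩
      fin_cases i
      · exact Or.inl hi.symm
      · exact Or.inr hi.symm
  rw [map_word]
  exact fin_prim m n (Nat.card Q) Q le_rfl hab _ _ hgen

end Pool.Agent.Results.MP_15511a_al.FiniteQuotients
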