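import Pool.Agent.Lib.MP_15511a_al.Stab.Main
import Pool.Agent.Lib.MP_15511a_al.NonPrim
import Pool.Agent.Lib.MP_15511a_al.Fox

/-!
A non-primitive element of a relatively free group which becomes primitive in larger rank.
-/

open scoped commutatorElement

namespace Pool.Agent.Results.MP_15511a_al.PrimitiveAfterStabilization

open MP15511a

/-- For nonzero m, k the element `[[y, z]^m, z^(2k)] x`, `z = [x, y]`, is not primitive in the
free group of rank 2 on x, y of the variety of abelian-by-(nilpotent of class 2) groups, but it is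
primitive in the free group of every rank `n ≥ 3` of this variety. -/
theorem result (m k : ℤ) (hm : m ≠ 0) (hk : k ≠ 0) :
    ¬ Primitive (emb 2 (le_refl 2) (word m k (FreeGroup.of 0) (FreeGroup.of 1))) ∧
    ∀ (n : ℕ) (h : 2 < n), Primitive (emb 2 h.le (word m k (FreeGroup.of 0) (FreeGroup.of 1))) := by
  constructor
  · rw [map_word, emb_of, emb_of]
    exact not_primitive m k hm hk
  · intro n h
    set x : FreeGroup (Fin 2) := FreeGroup.of 0 with hx
    set y : FreeGroup (Fin 2) := FreeGroup.of 1 with hy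
    have hxy : ⁅x, y⁆ ∈ (⊤ : Subgroup (FreeGroup (Fin 2))).lowerCentralSeries 1 :=
      Subgroup.commutator_mem_commutator (Subgroup.mem_top x) (Subgroup.mem_top y)
    have h1 : ⁅y, ⁅x, y⁆⁆ ^ m ∈ (⊤ : Subgroup (FreeGroup (Fin 2))).lowerCentralSeries 2 := by
      apply Subgroup.zpow_mem
      have h2 : ⁅⁅x, y⁆, y⁆ ∈ (⊤ : Subgroup (FreeGroup (Fin 2))).lowerCentralSeries 2 :=
        Subgroup.commutator_mem_commutator hxy (Subgroup.mem_top y)
      have h3 := Subgroup.inv_mem _ h2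
      rwa [commutatorElement_inv] at h3
    have h4 : ⁅x, y⁆ ^ (2 * k) ∈ (⊤ : Subgroup (FreeGroup (Fin 2))).lowerCentralSeries 1 :=
      Subgroup.zpow_mem _ hxy _
    have hu : UnimodularRow 2 (⁅⁅y, ⁅x, y⁆⁆ ^ m, ⁅x, y⁆ ^ (2 * k)⁆ * FreeGroup.of 0) := by
      obtain ⟨D, hD1, hD2, a, b, hab⟩ := fox_unimod m k
      refine ⟨D, ⟨hD1, hD2⟩, ![a, b], ?_⟩
      rw [Fin.sum_univ_two]
      exact hab
    exact primitive_of_unimodular (c := 1) 0 (⁅y, ⁅x, y⁆⁆ ^ m) (⁅x, y⁆ ^ (2 * k)) h1 h4 h hu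

end Pool.Agent.Results.MP_15511a_al.PrimitiveAfterStabilization
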