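import Pool.Agent.Lib.MP_15511a_al.Two.Final

/-!
Primitivity in free abelian-by-nilpotent groups of large rank and unimodularity of the Fox row.
-/

open scoped commutatorElement

namespace Pool.Agent.Results.MP_15511a_al.StablePrimitivity

open MP15511a

/-- Let w be an element of the free group `F_r`, let `m ≥ r` and let `Φ` be an automorphism of the
free group `F_m` with `Φ(w) = u x_i`. Suppose that `u ∈ [γ_{c+1}(F_m), γ_{c+1}(F_m)]` (that is, w is
congruent to a primitive element of `F_m` modulo this subgroup) and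
`n ≥ (m + c + 2) + (m + c + 2)^(c+1)`, or that `u ∈ [γ_{c+2}(F_m), γ_{c+1}(F_m)]` and
`n ≥ m + m^(c+1)`, or that u is one commutator of this kind and `n > m`. Then w is primitive in
`F_n(A N_{c+1})` if and only if the row of its Fox derivatives over the integral group ring of
`F_r / γ_{c+2}(F_r)` is unimodular. -/
theorem result (c r m n : ℕ) (hrm : r ≤ m) (h : m ≤ n) (w : FreeGroup (Fin r))
    (Φ : FreeGroup (Fin m) ≃* FreeGroup (Fin m)) (i : Fin m) (u : FreeGroup (Fin m))
    (hw : Φ (fe hrm w) = u * FreeGroup.of i)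
    (hn : (u ∈ ⁅(⊤ : Subgroup (FreeGroup (Fin m))).lowerCentralSeries c,
          (⊤ : Subgroup (FreeGroup (Fin m))).lowerCentralSeries c⁆ ∧
        (m + c + 2) + (m + c + 2) ^ (c + 1) ≤ n) ∨
      (u ∈ ⁅(⊤ : Subgroup (FreeGroup (Fin m))).lowerCentralSeries (c + 1),
          (⊤ : Subgroup (FreeGroup (Fin m))).lowerCentralSeries c⁆ ∧ m + m ^ (c + 1) ≤ n) ∨
      (m < n ∧ ∃ ρ ∈ (⊤ : Subgroup (FreeGroup (Fin m))).lowerCentralSeries (c + 1),
        ∃ ζ ∈ (⊤ : Subgroup (FreeGroup (Fin m))).lowerCentralSeries c, u = ⁅ρ, ζ⁆)) :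
    Primitive (emb (c + 1) (hrm.trans h) w) ↔ UnimodularRow (c + 1) w := by
  constructor
  · exact unimodular_of_primitive (hrm.trans h) w
  · intro hr
    have h1 : UnimodularRow (c + 1) (u * FreeGroup.of i) := by
      rw [← hw]
      exact row_aut Φ (row_fe hrm hr)
    have h2 : Primitive (emb (c + 1) h (u * FreeGroup.of i)) := by
      rcases hn with ⟨hu, hn⟩ | ⟨hu, hn⟩ | ⟨hn, ρ, hρ, ζ, hζ, rfl⟩
      · exact primitive_of_coset i u hu h hn h1
      · exact primitive_of_row i u hu h hn h1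
      · exact primitive_of_unimodular i ρ ζ hρ hζ hn h1
    rw [← hw] at h2
    have h3 := primitive_aut h Φ _ h2
    rwa [emb_fe] at h3

end Pool.Agent.Results.MP_15511a_al.StablePrimitivity
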